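import Pool.Agent.U167.SA.Stm8
import Pool.Agent.U669.SA.FUB

/-! Project SA, package MEA: measurability. -/

set_option autoImplicit false

namespace Pool.Agent.U15.SA

open H974 Filter Topology MeasureTheory
open Pool.Agent.U167.SA Pool.Agent.U97.SA Pool.Agent.U669.SA

theorem meas_LE (m : ℕ) (W : Finset Edg → Prop) (k : ℤ) : MeasurableSet (Pool.Agent.U167.SA.LE m W k) := by
  have h1 : Measurable (tE k) := by
    apply measurable_pi_lambda
    intro e
    exact measurable_pi_apply _
  have h2 : Pool.Agent.U167.SA.LE m W k = tE k ⁻¹' {ω : Om | W (op (boxE m) ω)} := by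
    ext ω
    have h3 : op (boxE m) (tE k ω) = (boxE m).filter (fun e => tE k ω e = true) := by
      ext e
      rw [mem_op, Finset.mem_filter]
    show W _ ↔ W (op (boxE m) (tE k ω))
    rw [h3]
  rw [h2]
  exact h1 (meas_event (boxE m) W)

theorem t_MEA : MeaStm := by
  intro m W A n k
  refine ⟨?_, meas_LE m W k⟩
  exact (meas_LE m W k).inter (meas_Cj _ _ _)

end Pool.Agent.U15.SA
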